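import Pool.Agent.Helper76.TC.Goals

/-! Project TC (MP_ccd65d_gt), packet KN: a power of `K` beats a constant times a smaller power. -/

set_option autoImplicit false

open Filter

namespace Pool.Agent.Helper91.TC.KN

theorem t : Pool.Agent.Helper76.TC.S_KN := by
  intro n C N hN
  have h1 : Tendsto (fun K : ℕ => (K : ℝ) ^ ((n : ℝ) + 1 - N)) atTop atTop :=
    (tendsto_rpow_atTop (sub_pos.mpr hN)).comp tendsto_natCast_atTop_atTop
  obtain ⟨K, hK, hK1⟩ := ((h1.eventually_gt_atTop (C * (2 * ((n : ℝ) + 1)) ^ N)).and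
    (eventually_ge_atTop 1)).exists
  refine ⟨K, hK1, ?_⟩
  have hK0 : (0 : ℝ) < K := by exact_mod_cast hK1
  have h2 : (2 * (K : ℝ) * ((n : ℝ) + 1)) ^ N = (2 * ((n : ℝ) + 1)) ^ N * (K : ℝ) ^ N := by
    rw [← Real.mul_rpow (by positivity) hK0.le]
    congr 1
    ring
  have h3 : (K : ℝ) ^ ((n : ℝ) + 1 - N) * (K : ℝ) ^ N = (K : ℝ) ^ (n + 1) := by
    rw [← Real.rpow_add hK0, sub_add_cancel, ← Real.rpow_natCast]
    congr 1
    push_cast
    ring
  rw [h2, ← mul_assoc, ← h3]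
  exact mul_lt_mul_of_pos_right hK (Real.rpow_pos_of_pos hK0 N)

end Pool.Agent.Helper91.TC.KN
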